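import Mathlib

namespace Pool.Agent.Results.MP_02be1f_lc.Yes

open MeasureTheory Filter Topology

/-- Configurations `{0,1}^ℤ`. -/
abbrev X := ℤ → Bool

/-- The shift. -/
def shift (x : X) : X := fun i => x (i + 1)

/-- The XOR cellular automaton. -/
def F (x : X) : X := fun i => xor (x i) (x (i + 1))

/-- The cylinder `[w]`. -/
def cyl (w : List Bool) : Set X := {x | ∀ (j : ℕ) (h : j < w.length), x j = w[j]}

/-- The rational number `(a - b) / (c + 1)` coded by the triple `(a, b, c)`. -/
noncomputable def ratOf (q : ℕ × ℕ × ℕ) : ℝ := ((q.1 : ℝ) - q.2.1) / ((q.2.2 : ℝ) + 1)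

/-- Computable measures. -/
def ComputableMeasure (ν : Measure X) : Prop :=
  ∃ f : List Bool × ℕ → ℕ × ℕ × ℕ, Computable f ∧
    ∀ w k, |ν.real (cyl w) - ratOf (f (w, k))| ≤ (1 / 2) ^ k

/-- Shift-invariant probability measures. -/
def InvProb (μ : Measure X) : Prop := IsProbabilityMeasure μ ∧ μ.map shift = μ

/-- `ν` is a weak-* limit point of `(Fⁿ μ)`. -/
def LimitPoint (μ ν : Measure X) : Prop :=
  ∃ φ : ℕ → ℕ, StrictMono φ ∧
    ∀ w, Tendsto (fun j => (μ.map F^[φ j]).real (cyl w)) atTop (𝓝 (ν.real (cyl w)))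

/-- The `μ`-limit set as a language. -/
def limitLang (μ : Measure X) : Set (List Bool) :=
  {w | ¬ Tendsto (fun n => (μ.map F^[n]).real (cyl w)) atTop (𝓝 0)}

/-! ### mixtures of periodic orbits -/

lemma meas_shift : Measurable shift := measurable_pi_lambda _ fun _ => measurable_pi_apply _

lemma meas_F : Measurable F := measurable_pi_lambda _ fun i =>
  (measurable_of_countable (fun q : Bool × Bool => xor q.1 q.2)).comp
    (f := fun x : X => (x i, x (i + 1)))
    ((measurable_pi_apply i).prodMk (measurable_pi_apply (i + 1)))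

lemma meas_cyl (w : List Bool) : MeasurableSet (cyl w) := by
  have : cyl w = ⋂ (j : ℕ) (h : j < w.length), (fun x : X => x j) ⁻¹' {w[j]} := by
    ext x; simp [cyl]
  rw [this]
  exact MeasurableSet.iInter fun j => MeasurableSet.iInter fun h =>
    measurable_pi_apply _ (measurableSet_singleton _)

lemma shift_iter (s : ℕ) (x : X) (t : ℤ) : shift^[s] x t = x (t + s) := by
  induction s generalizing t with
  | zero => simp
  | succ s ih => rw [Function.iterate_succ_apply', shift, ih]; congr 1; push_cast; ring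

lemma comm_iter (n s : ℕ) (x : X) : F^[n] (shift^[s] x) = shift^[s] (F^[n] x) := by
  have h : Function.Commute F shift := fun x => rfl
  exact (h.iterate_iterate n s) x

noncomputable def mix (x : ℕ → X) (p : ℕ → ℕ) : Measure X :=
  Measure.sum fun i => ENNReal.ofReal ((1 / 2) ^ (i + 1) / p i) •
    ∑ s ∈ Finset.range (p i), Measure.dirac (shift^[s] (x i))

open Classical in
noncomputable def cnt (y : X) (p : ℕ) (A : Set X) : ℕ :=
  ∑ s ∈ Finset.range p, if shift^[s] y ∈ A then 1 else 0

noncomputable def term (x : ℕ → X) (p : ℕ → ℕ) (A : Set X) (i : ℕ) : ℝ :=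
  (1 / 2) ^ (i + 1) / p i * cnt (x i) (p i) A

lemma cnt_le (y : X) (p : ℕ) (A : Set X) : cnt y p A ≤ p := by
  unfold cnt
  refine (Finset.sum_le_card_nsmul _ _ 1 fun s _ => ?_).trans (by simp)
  split_ifs <;> simp

lemma term_nonneg (x p A i) : 0 ≤ term x p A i := by unfold term; positivity

lemma term_le (x p A i) : term x p A i ≤ (1 / 2) ^ (i + 1) := by
  unfold term
  rcases Nat.eq_zero_or_pos (p i) with h | h
  · simp [h]
  · have h1 : (cnt (x i) (p i) A : ℝ) ≤ p i := by exact_mod_cast cnt_le _ _ _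
    have h2 : (0 : ℝ) < p i := by exact_mod_cast h
    rw [div_mul_eq_mul_div, div_le_iff₀ h2]
    gcongr

lemma hasSum_geo : HasSum (fun i : ℕ => ((1 : ℝ) / 2) ^ (i + 1)) 1 := by
  have := hasSum_geometric_two.mul_right (1 / 2 : ℝ)
  simpa [pow_succ] using this

lemma term_summable (x p A) : Summable (term x p A) :=
  Summable.of_nonneg_of_le (term_nonneg x p A) (term_le x p A) hasSum_geo.summable

lemma mix_apply (x p) {A : Set X} (hA : MeasurableSet A) :
    mix x p A = ENNReal.ofReal (∑' i, term x p A i) := by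
  classical
  rw [ENNReal.ofReal_tsum_of_nonneg (term_nonneg x p A) (term_summable x p A), mix,
    Measure.sum_apply _ hA]
  congr 1; funext i
  rw [term, ENNReal.ofReal_mul (by positivity), Measure.smul_apply, smul_eq_mul,
    Measure.finset_sum_apply, ENNReal.ofReal_natCast, cnt]
  congr 1
  push_cast
  refine Finset.sum_congr rfl fun s _ => ?_
  rw [Measure.dirac_apply' _ hA, Set.indicator_apply]
  simp

lemma mix_real (x p) {A : Set X} (hA : MeasurableSet A) :
    (mix x p).real A = ∑' i, term x p A i := by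
  rw [Measure.real, mix_apply x p hA, ENNReal.toReal_ofReal (tsum_nonneg (term_nonneg x p A))]

lemma mix_inv (x : ℕ → X) (p : ℕ → ℕ) (hp : ∀ i, 0 < p i) (hx : ∀ i, shift^[p i] (x i) = x i) :
    InvProb (mix x p) := by
  classical
  constructor
  · constructor
    rw [mix_apply x p MeasurableSet.univ]
    have : term x p Set.univ = fun i => (1 / 2) ^ (i + 1) := by
      funext i
      have : (p i : ℝ) ≠ 0 := by exact_mod_cast (hp i).ne'
      simp only [term, cnt, Set.mem_univ, if_true, Finset.sum_const, Finset.card_range,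
        smul_eq_mul, mul_one]
      field_simp
    rw [this, hasSum_geo.tsum_eq]; simp
  · ext A hA
    rw [Measure.map_apply meas_shift hA, mix_apply x p hA, mix_apply x p (meas_shift hA)]
    congr 2; funext i
    unfold term cnt
    congr 2
    have h1 := Finset.sum_range_succ (fun s => if shift^[s] (x i) ∈ A then 1 else 0) (p i)
    have h2 := Finset.sum_range_succ' (fun s => if shift^[s] (x i) ∈ A then 1 else 0) (p i)
    rw [hx] at h1
    have h3 := Nat.add_right_cancel (h2.symm.trans h1)
    rw [← h3]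
    refine Finset.sum_congr rfl fun s _ => ?_
    rw [Function.iterate_succ_apply']
    congr 1

lemma map_real (x p) (n : ℕ) (w : List Bool) :
    ((mix x p).map F^[n]).real (cyl w) = (mix (fun i => F^[n] (x i)) p).real (cyl w) := by
  rw [map_measureReal_apply (meas_F.iterate n) (meas_cyl w),
    mix_real _ _ (meas_F.iterate n (meas_cyl w)), mix_real _ _ (meas_cyl w)]
  congr 1; funext i
  unfold term cnt
  congr 2
  refine Finset.sum_congr rfl fun s _ => ?_
  rw [← comm_iter]
  congr 1

lemma mix_zero (x p) (w : List Bool) (h : ∀ i s, shift^[s] (x i) ∉ cyl w) :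
    (mix x p).real (cyl w) = 0 := by
  rw [mix_real _ _ (meas_cyl w)]
  simp [term, cnt, h]

lemma mix_lower (x p) (w : List Bool) (i : ℕ) (hp : 0 < p i) (h : x i ∈ cyl w) :
    (1 / 2) ^ (i + 1) / p i ≤ (mix x p).real (cyl w) := by
  classical
  rw [mix_real _ _ (meas_cyl w)]
  refine le_trans ?_ ((term_summable x p _).le_tsum i fun j _ => term_nonneg _ _ _ _)
  have : 1 ≤ cnt (x i) (p i) (cyl w) := by
    unfold cnt
    refine le_trans ?_ (Finset.single_le_sum (f := fun s => if shift^[s] (x i) ∈ cyl w then 1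
      else 0) (fun _ _ => Nat.zero_le _) (Finset.mem_range.2 hp))
    simp [h]
  have : (1 : ℝ) ≤ cnt (x i) (p i) (cyl w) := by exact_mod_cast this
  exact le_mul_of_one_le_right (by positivity) this

lemma mix_tendsto (z : ℕ → ℕ → X) (y : ℕ → X) (p) (w : List Bool)
    (h : ∀ i, ∀ᶠ j in atTop, z j i = y i) :
    Tendsto (fun j => (mix (z j) p).real (cyl w)) atTop (𝓝 ((mix y p).real (cyl w))) := by
  simp only [mix_real _ _ (meas_cyl w)]
  refine tendsto_tsum_of_dominated_convergence hasSum_geo.summable (fun i => ?_)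
    (Eventually.of_forall fun j i => ?_)
  · apply tendsto_const_nhds.congr'
    filter_upwards [h i] with j hj
    simp only [term, hj]
  · rw [Real.norm_of_nonneg (term_nonneg _ _ _ _)]; exact term_le _ _ _ _

/-! ### the orbit of a periodic single `1` -/

def one (p : ℕ) : X := fun t => decide ((p : ℤ) ∣ t)

lemma F_pow (m : ℕ) (x : X) (t : ℤ) : F^[2 ^ m] x t = xor (x t) (x (t + 2 ^ m)) := by
  induction m generalizing x t with
  | zero => simp [F]
  | succ m ih =>
    rw [pow_succ, mul_two, Function.iterate_add_apply, ih, ih, ih, pow_succ, mul_two, add_assoc]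
    cases x t <;> cases x (t + 2 ^ m) <;> simp

lemma per_succ {p m : ℕ} (hp : p + 1 = 2 ^ m) : F^[p + 1] (one p) = F (one p) := by
  funext t
  rw [hp, F_pow, F]
  congr 1
  have : (2 : ℤ) ^ m = p + 1 := by exact_mod_cast hp.symm
  simp only [one, this, show t + (p + 1) = t + 1 + p by ring, dvd_add_self_right]

lemma per_add {p m : ℕ} (hp : p + 1 = 2 ^ m) (n q : ℕ) (hn : 1 ≤ n) :
    F^[n + q * p] (one p) = F^[n] (one p) := by
  induction q with
  | zero => simp
  | succ q ih =>
    obtain ⟨n, rfl⟩ := Nat.exists_eq_add_of_le' hn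
    rw [show n + 1 + (q + 1) * p = (n + q * p) + (p + 1) by ring, Function.iterate_add_apply,
      per_succ hp, ← Function.iterate_succ_apply, ← ih]
    congr 1; simp only [Nat.succ_eq_add_one]; ring

lemma per_congr {p m : ℕ} (hp : p + 1 = 2 ^ m) {n n' : ℕ} (hn : 1 ≤ n) (hn' : 1 ≤ n')
    (h : n ≡ n' [MOD p]) : F^[n] (one p) = F^[n'] (one p) := by
  rcases le_total n n' with hl | hl
  · obtain ⟨q, hq⟩ := (Nat.modEq_iff_dvd' hl).1 h
    rw [show n' = n + q * p by rw [mul_comm]; omega, per_add hp n q hn]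
  · obtain ⟨q, hq⟩ := (Nat.modEq_iff_dvd' hl).1 h.symm
    rw [show n = n' + q * p by rw [mul_comm]; omega, per_add hp n' q hn']

def r (n j : ℕ) : Bool := decide (n.choose j % 2 = 1)

lemma r_succ (n j : ℕ) : r (n + 1) (j + 1) = xor (r n (j + 1)) (r n j) := by
  simp only [r, Nat.choose_succ_succ']
  rcases Nat.mod_two_eq_zero_or_one (n.choose j) with h | h <;>
    rcases Nat.mod_two_eq_zero_or_one (n.choose (j + 1)) with h' | h' <;>
    simp [Nat.add_mod, h, h']

lemma r_even {n j : ℕ} (hn : n % 2 = 0) (hj : j % 2 = 1) : r n j = false := by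
  have := Choose.choose_modEq_choose_mod_mul_choose_div_nat (n := n) (k := j) (p := 2)
  rw [hn, hj] at this
  simp only [Nat.ModEq] at this
  simp [r, this]

lemma r_odd {n : ℕ} (j : ℕ) (hn : n % 2 = 1) : r n j = r (n / 2) (j / 2) := by
  have := Choose.choose_modEq_choose_mod_mul_choose_div_nat (n := n) (k := j) (p := 2)
  rw [hn] at this
  simp only [Nat.ModEq] at this
  rcases Nat.mod_two_eq_zero_or_one j with h | h <;> simp [r, this, h]

lemma run_pow (n : ℕ) : ∀ j L : ℕ, 1 ≤ L → (j = 0 ∨ r n (j - 1) = false) →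
    (∀ s < L, r n (j + s) = true) → r n (j + L) = false → ∃ e, L = 2 ^ e := by
  induction n using Nat.strong_induction_on with
  | _ n ih =>
  intro j L hL h0 h1 h2
  rcases Nat.mod_two_eq_zero_or_one n with hn | hn
  · refine ⟨0, ?_⟩
    by_contra hne
    have a := h1 0 (by omega)
    have b := h1 1 (by omega)
    rcases Nat.mod_two_eq_zero_or_one j with hj | hj
    · rw [r_even hn (by omega)] at b; simp at b
    · rw [r_even hn (by omega)] at a; simp at a
  · have hj : j % 2 = 0 := by
      by_contra hj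
      have a := h1 0 (by omega)
      rcases h0 with h0 | h0
      · omega
      · rw [r_odd _ hn] at a h0
        rw [show (j - 1) / 2 = (j + 0) / 2 by omega, a] at h0
        simp at h0
    have hL2 : L % 2 = 0 := by
      by_contra hL2
      have a := h1 (L - 1) (by omega)
      rw [r_odd _ hn] at a h2
      rw [show (j + L) / 2 = (j + (L - 1)) / 2 by omega, a] at h2
      simp at h2
    suffices H : ∃ e, L / 2 = 2 ^ e by
      obtain ⟨e, he⟩ := H
      exact ⟨e + 1, by rw [pow_succ]; omega⟩
    refine ih (n / 2) (by omega) (j / 2) (L / 2) (by omega) ?_ ?_ ?_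
    · rcases h0 with h0 | h0
      · left; omega
      · right; rw [r_odd _ hn] at h0
        rwa [show j / 2 - 1 = (j - 1) / 2 by omega]
    · intro s hs
      have a := h1 (2 * s) (by omega)
      rw [r_odd _ hn] at a
      rwa [show j / 2 + s = (j + 2 * s) / 2 by omega]
    · rw [r_odd _ hn] at h2
      rwa [show j / 2 + L / 2 = (j + L) / 2 by omega]

lemma per_eq {p : ℕ} (n : ℕ) (hn : n < p) (q : ℤ) (j : ℕ) (hj : j < p) :
    F^[n] (one p) (q * p - j) = r n j := by
  induction n generalizing q j with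
  | zero =>
    simp only [Function.iterate_zero, id, one, r]
    rcases Nat.eq_zero_or_pos j with rfl | h
    · simp
    · have : ¬ (p : ℤ) ∣ q * p - j := by
        intro hd
        have := (dvd_sub_right (Dvd.intro_left q rfl)).1 hd
        have := Nat.le_of_dvd h (by exact_mod_cast this)
        omega
      simp [this, Nat.choose_eq_zero_of_lt h]
  | succ n ih =>
    rw [Function.iterate_succ_apply', F, ih (by omega) q j hj]
    rcases j with _ | j
    · have := ih (by omega) (q + 1) (p - 1) (by omega)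
      rw [show (q + 1) * p - ((p - 1 : ℕ) : ℤ) = q * p - (0 : ℕ) + 1 by
        rw [Nat.cast_sub (by omega)]; push_cast; ring] at this
      rw [this]
      simp [r, Nat.choose_eq_zero_of_lt (show n < p - 1 by omega)]
    · rw [show q * p - ((j + 1 : ℕ) : ℤ) + 1 = q * p - j by push_cast; ring,
        ih (by omega) q j (by omega), r_succ]

lemma per_full {p m : ℕ} (hp : p + 1 = 2 ^ m) (h0 : 0 < p) (t : ℤ) :
    F^[p] (one p) t = !(one p t) := by
  have h1 := per_succ hp
  rw [Function.iterate_succ_apply'] at h1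
  have h2 : ∀ t, xor (F^[p] (one p) t) (one p t) =
      xor (F^[p] (one p) (t + 1)) (one p (t + 1)) := by
    intro t
    have := congrFun h1 t
    simp only [F] at this
    revert this
    cases F^[p] (one p) t <;> cases F^[p] (one p) (t + 1) <;> cases one p t <;>
      cases one p (t + 1) <;> simp
  have h3 : F^[p] (one p) 0 = false := by
    obtain ⟨n, rfl⟩ := Nat.exists_eq_add_of_le' h0
    have a := per_eq n (Nat.lt_succ_self n) 0 0 (Nat.succ_pos n)
    have b := per_eq n (Nat.lt_succ_self n) 1 n (Nat.lt_succ_self n)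
    simp only [Nat.succ_eq_add_one, zero_mul, Nat.cast_zero, sub_zero, one_mul, Nat.cast_add,
      Nat.cast_one, add_sub_cancel_left] at a b
    rw [Function.iterate_succ_apply', F, a, zero_add, b]
    simp [r]
  have h4 : ∀ t : ℤ, xor (F^[p] (one p) t) (one p t) = true := by
    intro t
    induction t using Int.induction_on with
    | zero => simp [h3, one]
    | succ t ih => rw [← h2, ih]
    | pred t ih => rw [h2, sub_add_cancel, ih]
  have := h4 t
  revert this
  cases F^[p] (one p) t <;> cases one p t <;> simp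

/-- the marker word `0 1^(p-1) 0` -/
def wd (p : ℕ) : List Bool := (List.range (p + 1)).map fun j => !decide (j % p = 0)

lemma mem_cyl_map (g : ℕ → Bool) (n : ℕ) (y : X) :
    y ∈ cyl ((List.range n).map g) ↔ ∀ j < n, y j = g j := by
  simp [cyl]

lemma mem_wd {p : ℕ} (y : X) (h : y ∈ cyl (wd p)) :
    y 0 = false ∧ y p = false ∧ ∀ j : ℕ, 0 < j → j < p → y j = true := by
  rw [wd, mem_cyl_map] at h
  refine ⟨by simpa using h 0 (by omega), by simpa using h p (by omega), fun j h0 h1 => ?_⟩
  rw [h j (by omega), Nat.mod_eq_of_lt h1]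
  simp; omega

lemma marker {p m p' m' : ℕ} (hp : p + 1 = 2 ^ m) (hm : 3 ≤ m) (hp' : p' + 1 = 2 ^ m')
    (hm' : 3 ≤ m') (n s : ℕ) (hn : 1 ≤ n) (h : shift^[s] (F^[n] (one p)) ∈ cyl (wd p')) :
    p' = p ∧ p ∣ n := by
  have g8 : 8 ∣ p + 1 := by rw [hp]; exact pow_dvd_pow 2 hm
  have g8' : 8 ∣ p' + 1 := by rw [hp']; exact pow_dvd_pow 2 hm'
  obtain ⟨a0, a1, a2⟩ := mem_wd _ h
  simp only [shift_iter] at a0 a1 a2
  by_cases hd : p ∣ n
  · refine ⟨?_, hd⟩
    rw [per_congr hp hn (show 1 ≤ p by omega)
      (((Nat.modEq_zero_iff_dvd).2 hd).trans (Nat.modEq_zero_iff_dvd.2 dvd_rfl).symm)] at a0 a1 a2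
    simp only [per_full hp (show 0 < p by omega), one, Bool.not_eq_false', decide_eq_true_eq,
      Bool.not_eq_true', decide_eq_false_iff_not, zero_add] at a0 a1 a2
    have b1 : (p : ℤ) ∣ p' := (Int.dvd_add_left a0).1 a1
    have b2 : p ≤ p' := Nat.le_of_dvd (by omega) (by exact_mod_cast b1)
    by_contra hne
    exact a2 p (by omega) (by omega) (dvd_add dvd_rfl a0)
  · exfalso
    have hn0 : 1 ≤ n % p := Nat.pos_of_ne_zero fun h => hd (Nat.dvd_of_mod_eq_zero h)
    rw [per_congr hp hn hn0 (Nat.mod_modEq n p).symm] at a0 a1 a2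
    have hlt : n % p < p := Nat.mod_lt _ (by omega)
    generalize n % p = k at *
    obtain ⟨q, j, hj, e⟩ : ∃ (q : ℤ) (j : ℕ), j < p ∧ (p' : ℤ) + s = q * p - j := by
      have hp0 : (0 : ℤ) < p := by omega
      refine ⟨-((-((p' : ℤ) + s)) / p), ((-((p' : ℤ) + s)) % p).toNat, ?_, ?_⟩
      · have := Int.emod_lt_of_pos (-((p' : ℤ) + s)) hp0
        omega
      · have := Int.emod_nonneg (-((p' : ℤ) + s)) hp0.ne'
        rw [Int.toNat_of_nonneg this]
        have := Int.emod_add_mul_ediv (-((p' : ℤ) + s)) p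
        linarith
    -- position `p' - u + s` has index `j + u`
    have c : ∀ u : ℕ, u ≤ p' → j + u < p → F^[k] (one p) (((p' - u : ℕ) : ℤ) + s) = r k (j + u) := by
      intro u hu hju
      rw [← per_eq k hlt q (j + u) hju]
      refine congrArg (F^[k] (one p)) ?_
      rw [Nat.cast_sub hu]; push_cast; linarith
    have c' : ∀ u : ℕ, u ≤ p' → p ≤ j + u → j + u - p < p →
        F^[k] (one p) (((p' - u : ℕ) : ℤ) + s) = r k (j + u - p) := by
      intro u hu hju h3
      rw [← per_eq k hlt (q - 1) (j + u - p) h3]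
      refine congrArg (F^[k] (one p)) ?_
      rw [Nat.cast_sub hu, Nat.cast_sub hju]; push_cast; linarith
    have t1 : ∀ u : ℕ, 0 < u → u < p' → j + u < p → r k (j + u) = true := fun u h1 h2 h3 => by
      rw [← c u h2.le h3]; exact a2 _ (by omega) (by omega)
    have t2 : ∀ u : ℕ, 0 < u → u < p' → p ≤ j + u → j + u - p < p → r k (j + u - p) = true :=
      fun u h1 h2 h3 h4 => by rw [← c' u h2.le h3 h4]; exact a2 _ (by omega) (by omega)
    have fin : (∃ e, p' - 1 = 2 ^ e) → False := by
      rintro ⟨e, he⟩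
      rcases e with _ | _ | e
      · omega
      · omega
      · rw [pow_succ, pow_succ] at he; omega
    rcases Nat.mod_two_eq_zero_or_one k with hk | hk
    · by_cases h1 : j + 2 < p
      · rcases Nat.mod_two_eq_zero_or_one j with hj2 | hj2
        · have := t1 1 (by omega) (by omega) (by omega)
          rw [r_even hk (by omega)] at this; simp at this
        · have := t1 2 (by omega) (by omega) (by omega)
          rw [r_even hk (by omega)] at this; simp at this
      · have := t2 (p + 1 - j) (by omega) (by omega) (by omega) (by omega)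
        rw [r_even hk (by omega)] at this; simp at this
    · have z : r k (p - 1) = false := by
        simp [r, Nat.choose_eq_zero_of_lt (show k < p - 1 by omega)]
      by_cases h1 : j = p - 1
      · have h2 : p' ≤ p := by
          by_contra h2
          have := t2 p (by omega) (by omega) (by omega) (by omega)
          rw [show j + p - p = p - 1 by omega, z] at this; simp at this
        apply fin
        refine run_pow k 0 (p' - 1) (by omega) (Or.inl rfl) (fun u hu => ?_) ?_
        · have := t2 (u + 1) (by omega) (by omega) (by omega) (by omega)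
          rwa [show j + (u + 1) - p = 0 + u by omega] at this
        · have := c' p' le_rfl (by omega) (by omega)
          rw [show j + p' - p = 0 + (p' - 1) by omega] at this
          rw [← this]; simpa using a0
      · have h2 : j + p' < p := by
          by_contra h2
          have := t1 (p - 1 - j) (by omega) (by omega) (by omega)
          rw [show j + (p - 1 - j) = p - 1 by omega, z] at this; simp at this
        apply fin
        refine run_pow k (j + 1) (p' - 1) (by omega) (Or.inr ?_) (fun u hu => ?_) ?_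
        · have := c 0 (by omega) (by omega)
          rw [show j + 1 - 1 = j + 0 by omega, ← this]; simpa using a1
        · have := t1 (u + 1) (by omega) (by omega) (by omega)
          rwa [show j + 1 + u = j + (u + 1) by omega]
        · have := c p' le_rfl h2
          rw [show j + 1 + (p' - 1) = j + p' by omega, ← this]; simpa using a0

lemma marker' {p m : ℕ} (hp : p + 1 = 2 ^ m) (h0 : 0 < p) (n : ℕ) (hn : 1 ≤ n) (hd : p ∣ n) :
    F^[n] (one p) ∈ cyl (wd p) := by
  rw [per_congr hp hn h0
      (((Nat.modEq_zero_iff_dvd).2 hd).trans (Nat.modEq_zero_iff_dvd.2 dvd_rfl).symm),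
    wd, mem_cyl_map]
  intro j _
  simp [per_full hp h0, one, Int.natCast_dvd_natCast, Nat.dvd_iff_mod_eq_zero]

/-! ### the family of measures -/

def P (k : ℕ) : ℕ := 2 ^ (2 ^ 2 ^ k + 1) - 1

lemma P_succ (k : ℕ) : P k + 1 = 2 ^ (2 ^ 2 ^ k + 1) := by
  have : 0 < 2 ^ (2 ^ 2 ^ k + 1) := by positivity
  unfold P; omega

lemma three_le (k : ℕ) : 3 ≤ 2 ^ 2 ^ k + 1 := Nat.three_le_fermatNumber k

lemma P_ge (k : ℕ) : 7 ≤ P k := by
  have := Nat.pow_le_pow_right (show 0 < 2 by norm_num) (three_le k)
  have := P_succ k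
  omega

lemma P_cop {a b : ℕ} (h : a ≠ b) : (P a).Coprime (P b) := by
  have := Nat.coprime_fermatNumber_fermatNumber h
  unfold P
  rw [Nat.Coprime, Nat.pow_sub_one_gcd_pow_sub_one]
  simp only [Nat.fermatNumber, Nat.Coprime] at this
  rw [this]; rfl

lemma P_inj {a b : ℕ} (h : P a = P b) : a = b := by
  by_contra hne
  have := P_cop hne
  rw [h, Nat.coprime_self] at this
  have := P_ge b
  omega

def cfg (b : ℕ → Bool) (κ : ℕ → ℕ) (i : ℕ) : X :=
  if b i then one (P (κ i)) else fun _ => false

lemma F_zero (n : ℕ) : F^[n] (fun _ => false) = fun _ => false :=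
  Function.iterate_fixed rfl n

lemma cfg_per (b κ) (n i : ℕ) : shift^[P (κ i)] (F^[n] (cfg b κ i)) = F^[n] (cfg b κ i) := by
  rw [← comm_iter]
  congr 1
  funext t
  rw [shift_iter, cfg]
  split_ifs <;> simp [one]

lemma cfg_marker (b κ) (n i s k : ℕ) (hn : 1 ≤ n)
    (h : shift^[s] (F^[n] (cfg b κ i)) ∈ cyl (wd (P k))) : b i = true ∧ κ i = k ∧ P k ∣ n := by
  unfold cfg at h
  split_ifs at h with hb
  · obtain ⟨h1, h2⟩ := marker (P_succ _) (three_le _) (P_succ _) (three_le _) n s hn h
    exact ⟨hb, (P_inj h1).symm, h1 ▸ h2⟩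
  · have := (mem_wd _ h).2.2 1 one_pos (by have := P_ge k; omega)
    simp [F_zero, shift_iter] at this

lemma prim_pow : Primrec₂ ((· ^ ·) : ℕ → ℕ → ℕ) := Primrec₂.unpaired'.1 Nat.Primrec.pow

lemma prim_P : Primrec P :=
  Primrec.nat_sub.comp (prim_pow.comp (Primrec.const 2) (Primrec.succ.comp
    (prim_pow.comp (Primrec.const 2) (prim_pow.comp (Primrec.const 2) Primrec.id))))
    (Primrec.const 1)

lemma prim_sum {α : Type} [Primcodable α] {n : α → ℕ} {g : α → ℕ → ℕ} (hn : Primrec n)
    (hg : Primrec₂ g) : Primrec fun a => ∑ s ∈ Finset.range (n a), g a s := by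
  have := Primrec.nat_rec' (f := n) (g := fun _ => (0 : ℕ))
    (h := fun a (q : ℕ × ℕ) => q.2 + g a q.1) hn (Primrec.const 0)
    (Primrec.nat_add.comp (Primrec.snd.comp Primrec.snd)
      (hg.comp Primrec.fst (Primrec.fst.comp Primrec.snd))).to₂
  refine this.of_eq fun a => ?_
  induction n a with
  | zero => simp
  | succ m ih => rw [Finset.sum_range_succ, ← ih]

def cntN (b : ℕ → Bool) (κ : ℕ → ℕ) (w : List Bool) (i : ℕ) : ℕ :=
  ∑ s ∈ Finset.range (P (κ i)),
    if w = (List.range w.length).map (fun j => b i && decide ((j + s) % P (κ i) = 0)) then 1 else 0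

lemma cnt_eq (b κ w i) : cnt (cfg b κ i) (P (κ i)) (cyl w) = cntN b κ w i := by
  unfold cnt cntN
  refine Finset.sum_congr rfl fun s _ => ?_
  congr 1
  have e : ∀ j : ℕ, shift^[s] (cfg b κ i) j = (b i && decide ((j + s) % P (κ i) = 0)) := by
    intro j
    rw [shift_iter, cfg]
    split_ifs with h
    · simp only [one, h, Bool.true_and, ← Nat.cast_add, Int.natCast_dvd_natCast,
        Nat.dvd_iff_mod_eq_zero]
    · simp [h]
  simp only [cyl, Set.mem_setOf_eq, e, eq_iff_iff]
  constructor
  · intro h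
    apply List.ext_getElem (by simp)
    intro j h1 h2
    simp [← h j h1]
  · intro h j hj
    have := List.getElem_of_eq h hj
    simpa using this.symm

lemma prim_cntN {b κ} (hb : Primrec b) (hκ : Primrec κ) : Primrec₂ (cntN b κ) := by
  have hP : Primrec fun a : List Bool × ℕ => P (κ a.2) := prim_P.comp (hκ.comp Primrec.snd)
  refine prim_sum hP ?_
  refine Primrec.ite (Primrec.eq.comp (Primrec.fst.comp Primrec.fst) ?_) (Primrec.const 1)
    (Primrec.const 0)
  refine Primrec.list_map (Primrec.list_range.comp (Primrec.list_length.comp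
    (Primrec.fst.comp Primrec.fst))) ?_
  refine Primrec.and.comp (hb.comp (Primrec.snd.comp (Primrec.fst.comp Primrec.fst))) ?_
  refine PrimrecPred.decide (Primrec.eq.comp (Primrec.nat_mod.comp (Primrec.nat_add.comp
    Primrec.snd (Primrec.snd.comp Primrec.fst)) (hP.comp (Primrec.fst.comp Primrec.fst)))
    (Primrec.const 0))

lemma cfg_computable {b κ} (hb : Primrec b) (hκ : Primrec κ) :
    ComputableMeasure (mix (cfg b κ) fun i => P (κ i)) := by
  refine ⟨fun a => (∑ i ∈ Finset.range (a.2 + 1),
    cntN b κ a.1 i * 2 ^ (2 * a.2 + 2) / (2 ^ (i + 1) * P (κ i)), 0, 2 ^ (2 * a.2 + 2) - 1), ?_, ?_⟩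
  · have hB : Primrec fun a : List Bool × ℕ => 2 ^ (2 * a.2 + 2) :=
      prim_pow.comp (Primrec.const 2) (Primrec.nat_add.comp
        (Primrec.nat_mul.comp (Primrec.const 2) Primrec.snd) (Primrec.const 2))
    refine Primrec.to_comp (Primrec.pair (prim_sum (Primrec.succ.comp Primrec.snd) ?_)
      (Primrec.pair (Primrec.const 0) (Primrec.nat_sub.comp hB (Primrec.const 1))))
    exact Primrec.nat_div.comp (Primrec.nat_mul.comp ((prim_cntN hb hκ).comp
      (Primrec.fst.comp Primrec.fst) Primrec.snd) (hB.comp Primrec.fst))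
      (Primrec.nat_mul.comp (prim_pow.comp (Primrec.const 2) (Primrec.succ.comp Primrec.snd))
        (prim_P.comp (hκ.comp Primrec.snd)))
  · intro w k
    rw [mix_real _ _ (meas_cyl w), ← (term_summable _ _ _).sum_add_tsum_nat_add (k + 1)]
    obtain ⟨B, hB⟩ : ∃ B : ℕ, B = 2 ^ (2 * k + 2) := ⟨_, rfl⟩
    have hB0 : 0 < B := by rw [hB]; positivity
    have hBr : (0 : ℝ) < B := by exact_mod_cast hB0
    simp only [ratOf, ← hB, Nat.cast_zero, sub_zero, Nat.cast_sub hB0, Nat.cast_one,
      sub_add_cancel, Nat.cast_sum, Finset.sum_div]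
    obtain ⟨T, hT⟩ : ∃ T, T = term (cfg b κ) (fun i => P (κ i)) (cyl w) := ⟨_, rfl⟩
    rw [← hT]
    have t0 : 0 ≤ ∑' i, T (i + (k + 1)) := tsum_nonneg fun i => by rw [hT]; exact term_nonneg ..
    have t1 : ∑' i, T (i + (k + 1)) ≤ (1 / 2) ^ (k + 1) := by
      have := hasSum_geo.mul_right ((1 / 2 : ℝ) ^ (k + 1))
      rw [one_mul] at this
      refine hasSum_le (fun i => ?_) ((summable_nat_add_iff (k + 1)).2
        (by rw [hT]; exact term_summable ..)).hasSum this
      rw [hT, ← pow_add]
      exact (term_le ..).trans (le_of_eq (by congr 1; ring))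
    have t2 : ∀ i, 0 ≤ T i - ((cntN b κ w i * B / (2 ^ (i + 1) * P (κ i)) : ℕ) : ℝ) / B ∧
        T i - ((cntN b κ w i * B / (2 ^ (i + 1) * P (κ i)) : ℕ) : ℝ) / B ≤ 1 / B := by
      intro i
      have hP : 0 < P (κ i) := by have := P_ge (κ i); omega
      have hPr : (0 : ℝ) < P (κ i) := by exact_mod_cast hP
      have e : T i = ((cntN b κ w i * B : ℕ) : ℝ) / ((2 ^ (i + 1) * P (κ i) : ℕ) : ℝ) / B := by
        rw [hT, term, cnt_eq, one_div_pow]; push_cast; field_simp
      rw [e, ← sub_div, ← Nat.floor_div_eq_div (K := ℝ)]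
      have h1 := Nat.floor_le (show (0 : ℝ) ≤ ((cntN b κ w i * B : ℕ) : ℝ) /
        ((2 ^ (i + 1) * P (κ i) : ℕ) : ℝ) by positivity)
      have h2 := Nat.lt_floor_add_one (((cntN b κ w i * B : ℕ) : ℝ) /
        ((2 ^ (i + 1) * P (κ i) : ℕ) : ℝ))
      constructor
      · exact div_nonneg (by linarith) hBr.le
      · gcongr; linarith
    have t3 := Finset.sum_nonneg fun i (_ : i ∈ Finset.range (k + 1)) => (t2 i).1
    have t4 := Finset.sum_le_sum fun i (_ : i ∈ Finset.range (k + 1)) => (t2 i).2
    rw [Finset.sum_sub_distrib] at t3 t4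
    have t5 : ∑ i ∈ Finset.range (k + 1), (1 : ℝ) / B ≤ (1 / 2) ^ (k + 1) := by
      rw [Finset.sum_const, Finset.card_range, nsmul_eq_mul, hB]
      have : ((k + 1 : ℕ) : ℝ) ≤ 2 ^ (k + 1) := by exact_mod_cast Nat.lt_two_pow_self.le
      rw [show 2 * k + 2 = (k + 1) + (k + 1) by ring, pow_add 2 (k + 1)]
      push_cast at this ⊢
      rw [one_div_pow, mul_one_div, div_le_div_iff₀ (by positivity) (by positivity), one_mul]
      gcongr
    rw [abs_le]
    have t6 : ((1 : ℝ) / 2) ^ (k + 1) = (1 / 2) ^ k / 2 := by rw [pow_succ]; ring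
    have t7 : (0 : ℝ) ≤ (1 / 2) ^ k := by positivity
    constructor <;> linarith

lemma P_pos (k : ℕ) : 0 < P k := by have := P_ge k; omega

lemma q1 : ∃ μ, InvProb μ ∧ ComputableMeasure μ ∧
    ∃ ν, InvProb ν ∧ LimitPoint μ ν ∧ ¬ ComputableMeasure ν := by
  refine ⟨mix (cfg (fun _ => true) id) fun i => P (id i),
    mix_inv _ _ (fun i => P_pos _) (fun i => cfg_per _ _ 0 i),
    cfg_computable (Primrec.const true) Primrec.id, ?_⟩
  obtain ⟨ν, hν⟩ : ∃ ν : (ℕ → Bool) → Measure X, ν = fun β =>
      mix (fun i => F^[P i + (if β i then 0 else 1)] (cfg (fun _ => true) id i))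
        fun i => P (id i) := ⟨_, rfl⟩
  have h1 : ∀ β, InvProb (ν β) := fun β => by
    rw [hν]; exact mix_inv _ _ (fun i => P_pos _) (fun i => cfg_per _ _ _ i)
  have h2 : ∀ β, LimitPoint (mix (cfg (fun _ => true) id) fun i => P (id i)) (ν β) := by
    intro β
    obtain ⟨φ, hφ, hc⟩ := extraction_forall_of_frequently (P := fun j n => 1 ≤ n ∧
        ∀ i ∈ Finset.range (j + 1), n ≡ P i + (if β i then 0 else 1) [MOD P i]) (by
      intro j
      obtain ⟨c, hc⟩ := Nat.chineseRemainderOfFinset (fun i => P i + (if β i then 0 else 1)) P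
        (Finset.range (j + 1)) (fun i _ => (P_pos i).ne') (fun a _ b _ h => P_cop h)
      rw [frequently_atTop]
      intro N
      have h0 : 0 < ∏ i ∈ Finset.range (j + 1), P i := Finset.prod_pos fun i _ => P_pos i
      refine ⟨c + (N + 1) * ∏ i ∈ Finset.range (j + 1), P i, by nlinarith, by nlinarith,
        fun i hi => ?_⟩
      have := (hc i hi).add ((Nat.modEq_zero_iff_dvd).2
        (Dvd.dvd.mul_left (Finset.dvd_prod_of_mem P hi) (N + 1)))
      simpa using this)
    refine ⟨φ, hφ, fun w => ?_⟩
    simp only [map_real, hν]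
    apply mix_tendsto
    intro i
    filter_upwards [eventually_ge_atTop i] with j hj
    exact per_congr (P_succ i) (hc j).1 (by have := P_pos i; omega)
      ((hc j).2 i (Finset.mem_range.2 (by omega)))
  have h3 : ∀ β k, (ν β).real (cyl (wd (P k))) = 0 ↔ β k = false := by
    intro β k
    rw [hν]
    constructor
    · intro h
      by_contra hb
      have := mix_lower (fun i => F^[P i + (if β i then 0 else 1)] (cfg (fun _ => true) id i))
        (fun i => P (id i)) (wd (P k)) k (P_pos _)
        (marker' (P_succ k) (P_pos k) _ (by have := P_pos k; omega) (by simp at hb; simp [hb]))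
      have h0 : (0 : ℝ) < P k := by exact_mod_cast P_pos k
      have : (0 : ℝ) < (1 / 2) ^ (k + 1) / P k := by positivity
      simp only [id] at *
      linarith
    · intro h
      apply mix_zero
      intro i s hs
      obtain ⟨_, rfl, h2⟩ := cfg_marker _ _ _ _ _ _ (by have := P_pos i; omega) hs
      simp only [id] at h h2
      rw [h] at h2
      have := Nat.le_of_dvd one_pos ((Nat.dvd_add_right dvd_rfl).1 h2)
      have := P_ge i
      omega
  by_contra hcon
  push Not at hcon
  choose f hf hf2 using fun β => hcon (ν β) (h1 β) (h2 β)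
  choose c hc using fun β => Nat.Partrec.Code.exists_code.1 (hf β)
  have hinj : Function.Injective c := by
    intro β β' h
    have e : f β = f β' := by
      funext a
      have := congrFun ((hc β).symm.trans (h ▸ hc β')) (Encodable.encode a)
      simpa using this
    have e2 : ∀ w, (ν β).real (cyl w) = (ν β').real (cyl w) := by
      intro w
      have : Tendsto (fun k : ℕ => 2 * ((1 : ℝ) / 2) ^ k) atTop (𝓝 (2 * 0)) :=
        (tendsto_pow_atTop_nhds_zero_of_lt_one (by norm_num) (by norm_num)).const_mul 2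
      have h4 : |(ν β).real (cyl w) - (ν β').real (cyl w)| ≤ 2 * 0 := by
        refine ge_of_tendsto' this fun k => ?_
        have a := hf2 β w k
        have b := hf2 β' w k
        rw [e] at a
        rw [abs_le] at a b ⊢
        constructor <;> linarith [a.1, a.2, b.1, b.2]
      rw [mul_zero, abs_nonpos_iff] at h4
      linarith
    funext k
    have := (h3 β k).symm.trans ((e2 _).congr_left.trans (h3 β' k))
    revert this
    cases β k <;> cases β' k <;> simp
  have : Countable (ℕ → Bool) := hinj.countable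
  obtain ⟨g, hg⟩ := exists_surjective_nat (ℕ → Bool)
  obtain ⟨n, hn⟩ := hg fun n => !g n n
  have := congrFun hn n
  simp at this

open Nat.Partrec (Code) in
lemma q2 : ∃ μ, InvProb μ ∧ ComputableMeasure μ ∧ ¬ ComputablePred (· ∈ limitLang μ) := by
  obtain ⟨b, hb⟩ : ∃ b : ℕ → Bool, b = fun i =>
    (Code.evaln i.unpair.2 (Denumerable.ofNat Code i.unpair.1) 0).isSome := ⟨_, rfl⟩
  obtain ⟨κ, hκ⟩ : ∃ κ : ℕ → ℕ, κ = fun i => i.unpair.1 := ⟨_, rfl⟩
  have pκ : Primrec κ := by rw [hκ]; exact Primrec.fst.comp Primrec.unpair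
  have pb : Primrec b := by
    rw [hb]
    exact Primrec.option_isSome.comp (Code.primrec_evaln.comp (Primrec.pair (Primrec.pair
      (Primrec.snd.comp Primrec.unpair) ((Primrec.ofNat Code).comp
        (Primrec.fst.comp Primrec.unpair))) (Primrec.const 0)))
  refine ⟨mix (cfg b κ) fun i => P (κ i),
    mix_inv _ _ (fun i => P_pos _) (fun i => cfg_per _ _ 0 i), cfg_computable pb pκ, fun h => ?_⟩
  have pw : Primrec fun c : Code => wd (P (Encodable.encode c)) := by
    have hP : Primrec fun c : Code => P (Encodable.encode c) := prim_P.comp Primrec.encode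
    refine Primrec.list_map (Primrec.list_range.comp (Primrec.succ.comp hP)) ?_
    exact Primrec.not.comp (PrimrecPred.decide (Primrec.eq.comp
      (Primrec.nat_mod.comp Primrec.snd (hP.comp Primrec.fst)) (Primrec.const 0)))
  apply ComputablePred.halting_problem 0
  obtain ⟨hd, h⟩ := h
  have key : ∀ c : Code, wd (P (Encodable.encode c)) ∈ limitLang (mix (cfg b κ) fun i => P (κ i))
      ↔ (c.eval 0).Dom := by
    intro c
    simp only [limitLang, Set.mem_setOf_eq, map_real]
    constructor
    · intro h1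
      by_contra h2
      apply h1
      apply tendsto_const_nhds.congr'
      filter_upwards [eventually_ge_atTop 1] with n hn
      symm
      apply mix_zero
      intro i s hs
      obtain ⟨h3, h4, _⟩ := cfg_marker _ _ _ _ _ _ hn hs
      rw [hb] at h3
      rw [hκ] at h4
      simp only at h3 h4
      rw [h4, Denumerable.ofNat_encode] at h3
      obtain ⟨v, hv⟩ := Option.isSome_iff_exists.1 h3
      exact h2 (Part.dom_iff_mem.2 ⟨v, Code.evaln_sound hv⟩)
    · intro h1 h2
      obtain ⟨v, hv⟩ := Part.dom_iff_mem.1 h1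
      obtain ⟨T, hT⟩ := Code.evaln_complete.1 hv
      obtain ⟨k, hk⟩ : ∃ k, k = Encodable.encode c := ⟨_, rfl⟩
      rw [← hk] at h2
      have e1 : κ (Nat.pair k T) = k := by simp [hκ]
      have e2 : b (Nat.pair k T) = true := by
        simp only [hb, Nat.unpair_pair, hk, Denumerable.ofNat_encode]
        exact Option.isSome_iff_exists.2 ⟨v, hT⟩
      have h0 : (0 : ℝ) < P k := by exact_mod_cast P_pos k
      have hpos : (0 : ℝ) < (1 / 2) ^ (Nat.pair k T + 1) / P k := by positivity
      obtain ⟨N, hN⟩ := eventually_atTop.1 (h2.eventually (gt_mem_nhds hpos))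
      have hP := P_pos k
      have := mix_lower (fun i => F^[(N + 1) * P k] (cfg b κ i)) (fun i => P (κ i)) (wd (P k))
        (Nat.pair k T) (P_pos _) (by
          simp only [cfg, e2, e1, if_true]
          exact marker' (P_succ k) hP _ (by nlinarith) (Dvd.intro_left _ rfl))
      simp only [e1] at this
      have := hN ((N + 1) * P k) (by nlinarith)
      linarith
  exact ComputablePred.of_eq ⟨fun c => hd _, h.comp pw.to_comp⟩ key

theorem result :
    (∃ μ, InvProb μ ∧ ComputableMeasure μ ∧
      ∃ ν, InvProb ν ∧ LimitPoint μ ν ∧ ¬ ComputableMeasure ν) ∧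
    (∃ μ, InvProb μ ∧ ComputableMeasure μ ∧ ¬ ComputablePred (· ∈ limitLang μ)) :=
  ⟨q1, q2⟩

end Pool.Agent.Results.MP_02be1f_lc.Yes
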